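import Pool.Agent.H17.EQ.TWR
import Pool.Agent.H17.EE.XB
import Pool.Agent.H70.BO.XC

/-!
# MP_70ba79_ag, Theorem E, part Q: row QAL (the algebraic part of Proposition 7)
-/

set_option autoImplicit false

namespace Pool.Agent.H17.EQ

open MvPolynomial SC Pool.Agent.H27.LV Pool.Agent.H17.VG Pool.Agent.H17.BO Pool.Agent.H30.EE

/-- divisibility by a separable polynomial can be tested at the roots -/
theorem dvd_of_roots {L : Type} [Field L] {U P : Polynomial L} (hs : U.Separable)
    (h : ∀ θ : AlgebraicClosure L, Polynomial.aeval θ U = 0 → Polynomial.aeval θ P = 0) :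
    U ∣ P := by
  classical
  by_cases hP : P = 0
  · rw [hP]
    exact dvd_zero _
  have hU : U ≠ 0 := hs.ne_zero
  rw [← Polynomial.map_dvd_map' (algebraMap L (AlgebraicClosure L))]
  refine (IsAlgClosed.splits _).dvd_of_roots_le_roots
    ((Polynomial.map_ne_zero_iff (algebraMap L (AlgebraicClosure L)).injective).2 hU) ?_
  rw [Multiset.le_iff_subset (Polynomial.nodup_roots hs.map)]
  intro θ hθ
  rw [Polynomial.mem_roots ((Polynomial.map_ne_zero_iff
    (algebraMap L (AlgebraicClosure L)).injective).2 hU), Polynomial.IsRoot.def,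
    Polynomial.eval_map_algebraMap] at hθ
  rw [Polynomial.mem_roots ((Polynomial.map_ne_zero_iff
    (algebraMap L (AlgebraicClosure L)).injective).2 hP), Polynomial.IsRoot.def,
    Polynomial.eval_map_algebraMap]
  exact h θ hθ

/-- solutions of the system -/
structure Sol {k0 Ω : Type} [Field k0] [Field Ω] [Algebra k0 Ω] {n r d M : ℕ}
    (c : Mon (n + 1) d → k0) (q : Fin M → Mon (n + 1) 2 → k0)
    (ζ ν : Fin (r + 1) → Fin (n + 1) → Ω) : Prop where
  p0 : aeval (ζ 0) (frm c) = 0
  p1 : aeval (fun l => ∑ i, ζ i l) (frm c) = 0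
  p2 : aeval (ζ (Fin.last r)) (frm c) = 0
  inv : ∀ i i', ∑ l, ν i l * ζ i' l = if i = i' then 1 else 0
  qd : ∀ l, resC ζ (frm fun a => algebraMap k0 Ω (q l a)) = 0

theorem sys {k0 : Type} [Field k0] {n d M : ℕ} (r : ℕ)
    (c : Mon (n + 1) d → k0) (q : Fin M → Mon (n + 1) 2 → k0) :
    ∃ I : Set (MvPolynomial ((Fin (r + 1) × Fin (n + 1)) ⊕ (Fin (r + 1) × Fin (n + 1))) k0),
    ∀ (Ω : Type) [Field Ω] [Algebra k0 Ω] (ζ ν : Fin (r + 1) → Fin (n + 1) → Ω),
    (∀ f ∈ I, aeval (Sum.elim (fun t : Fin (r + 1) × Fin (n + 1) => ζ t.1 t.2)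
      (fun t : Fin (r + 1) × Fin (n + 1) => ν t.1 t.2)) f = 0) ↔ Sol c q ζ ν := by
  classical
  obtain ⟨zh, hzh⟩ : ∃ zh : Fin (r + 1) → Fin (n + 1) → MvPolynomial
      ((Fin (r + 1) × Fin (n + 1)) ⊕ (Fin (r + 1) × Fin (n + 1))) k0,
      zh = fun i l => X (Sum.inl (i, l)) := ⟨_, rfl⟩
  obtain ⟨vh, hvh⟩ : ∃ vh : Fin (r + 1) → Fin (n + 1) → MvPolynomial
      ((Fin (r + 1) × Fin (n + 1)) ⊕ (Fin (r + 1) × Fin (n + 1))) k0,
      vh = fun i l => X (Sum.inr (i, l)) := ⟨_, rfl⟩
  refine ⟨{aeval (zh 0) (frm c)} ∪ ({aeval (fun l => ∑ i, zh i l) (frm c)} ∪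
    ({aeval (zh (Fin.last r)) (frm c)} ∪
    ({f | ∃ i i', f = ∑ l, vh i l * zh i' l - if i = i' then 1 else 0} ∪
    {f | ∃ l m, f = (rsR zh (MvPolynomial.map C (frm (q l)))).coeff m}))), ?_⟩
  intro Ω _ _ ζ ν
  obtain ⟨φ, hφ⟩ : ∃ φ : MvPolynomial
      ((Fin (r + 1) × Fin (n + 1)) ⊕ (Fin (r + 1) × Fin (n + 1))) k0 →ₐ[k0] Ω,
      φ = aeval (Sum.elim (fun t : Fin (r + 1) × Fin (n + 1) => ζ t.1 t.2)
      (fun t : Fin (r + 1) × Fin (n + 1) => ν t.1 t.2)) := ⟨_, rfl⟩
  rw [← hφ]
  have h1 : ∀ i l, φ (zh i l) = ζ i l := by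
    intro i l
    rw [hφ, hzh]
    simp
  have h2 : ∀ i l, φ (vh i l) = ν i l := by
    intro i l
    rw [hφ, hvh]
    simp
  have e0 : φ (aeval (zh 0) (frm c)) = aeval (ζ 0) (frm c) := by
    rw [MvPolynomial.comp_aeval_apply]
    congr 2
    funext l
    exact h1 _ _
  have e1 : φ (aeval (fun l => ∑ i, zh i l) (frm c)) = aeval (fun l => ∑ i, ζ i l) (frm c) := by
    rw [MvPolynomial.comp_aeval_apply]
    congr 2
    funext l
    rw [map_sum]
    exact Finset.sum_congr rfl fun i _ => h1 _ _
  have e2 : φ (aeval (zh (Fin.last r)) (frm c)) = aeval (ζ (Fin.last r)) (frm c) := by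
    rw [MvPolynomial.comp_aeval_apply]
    congr 2
    funext l
    exact h1 _ _
  have e3 : ∀ i i', φ (∑ l, vh i l * zh i' l - if i = i' then 1 else 0) =
      ∑ l, ν i l * ζ i' l - if i = i' then 1 else 0 := by
    intro i i'
    rw [map_sub, map_sum]
    congr 1
    · exact Finset.sum_congr rfl fun l _ => by rw [map_mul, h1, h2]
    · by_cases h : i = i'
      · rw [if_pos h, if_pos h, map_one]
      · rw [if_neg h, if_neg h, map_zero]
  have e4 : ∀ l, (rsR zh (MvPolynomial.map C (frm (q l)))).map (φ : _ →+* Ω) =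
      resC ζ (frm fun a => algebraMap k0 Ω (q l a)) := by
    intro l
    rw [rsR_map, MvPolynomial.map_map]
    have h3 : (φ : MvPolynomial ((Fin (r + 1) × Fin (n + 1)) ⊕ (Fin (r + 1) × Fin (n + 1)))
        k0 →+* Ω).comp C = algebraMap k0 Ω := by
      ext a
      change φ (C a) = _
      rw [← MvPolynomial.algebraMap_eq, AlgHom.commutes]
    rw [h3, Pool.Agent.H70.BO.XC.frm_map]
    have h4 : (fun (j : Fin (r + 1)) (i : Fin (n + 1)) => (φ : _ →+* Ω) (zh j i)) = ζ := by
      funext j i
      exact h1 _ _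
    rw [h4]
    rfl
  constructor
  · intro h
    refine ⟨?_, ?_, ?_, ?_, ?_⟩
    · rw [← e0]
      exact h _ (Or.inl rfl)
    · rw [← e1]
      exact h _ (Or.inr (Or.inl rfl))
    · rw [← e2]
      exact h _ (Or.inr (Or.inr (Or.inl rfl)))
    · intro i i'
      rw [← sub_eq_zero, ← e3]
      exact h _ (Or.inr (Or.inr (Or.inr (Or.inl ⟨i, i', rfl⟩))))
    · intro l
      rw [← e4]
      ext m
      rw [Polynomial.coeff_map, Polynomial.coeff_zero]
      exact h _ (Or.inr (Or.inr (Or.inr (Or.inr ⟨l, m, rfl⟩))))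
  · intro h f hf
    rcases hf with rfl | rfl | rfl | ⟨i, i', rfl⟩ | ⟨l, m, rfl⟩
    · rw [e0]
      exact h.p0
    · rw [e1]
      exact h.p1
    · rw [e2]
      exact h.p2
    · rw [e3, h.inv, sub_self]
    · have h3 := congrArg (fun p => Polynomial.coeff p m) (e4 l)
      simp only [Polynomial.coeff_map] at h3
      change φ _ = _ at h3
      rw [h3, h.qd, Polynomial.coeff_zero]

theorem pf_QAL (hNSS : T_NSS) (hTZE : T_TZE) (hMV3 : T_MV3) (hEQV : T_EQV) : T_QAL := by
  classical
  intro k0 L _ _ _ _ _ n d r M c q z hd hr hM hq hz hqz hev hT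
  obtain ⟨F, hF⟩ : ∃ F, F = up L (frm c) := ⟨_, rfl⟩
  have hFh : F.IsHomogeneous d := by
    rw [hF]
    exact (frm_homog c).map _
  have hLΩ : CharZero (AlgebraicClosure L) :=
    charZero_of_injective_algebraMap (algebraMap L (AlgebraicClosure L)).injective
  -- the curve over the algebraic closure
  obtain ⟨zΩ, hzΩ⟩ : ∃ zΩ : Fin (r + 1) → Fin (n + 1) → AlgebraicClosure L,
      zΩ = fun i l => algebraMap L (AlgebraicClosure L) (z i l) := ⟨_, rfl⟩
  have hzΩi : LinearIndependent (AlgebraicClosure L) zΩ := by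
    obtain ⟨W, hW⟩ := Pool.Agent.H17.EE.exists_leftInv hz
    refine Pool.Agent.H17.EE.linInd_of_leftInv
      (W := fun l j => algebraMap L (AlgebraicClosure L) (W l j)) ?_
    intro i j
    have h1 := congrArg (algebraMap L (AlgebraicClosure L)) (hW i j)
    rw [map_sum] at h1
    simp only [map_mul] at h1
    rw [hzΩ]
    rw [h1]
    by_cases h : i = j
    · rw [if_pos h, if_pos h, map_one]
    · rw [if_neg h, if_neg h, map_zero]
  have hres : ∀ G : MvPolynomial (Fin (n + 1)) L,
      resC zΩ (MvPolynomial.map (algebraMap L (AlgebraicClosure L)) G) =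
        (resC z G).map (algebraMap L (AlgebraicClosure L)) := by
    intro G
    rw [hzΩ]
    exact (Pool.Agent.H17.EE.resC_map (algebraMap L (AlgebraicClosure L)) z G).symm
  have hevΩ : ∀ (y : Fin (n + 1) → L) (G : MvPolynomial (Fin (n + 1)) L),
      eval (fun l => algebraMap L (AlgebraicClosure L) (y l))
        (MvPolynomial.map (algebraMap L (AlgebraicClosure L)) G) =
        algebraMap L (AlgebraicClosure L) (eval y G) := fun y G =>
    Pool.Agent.H70.BO.XC.eval_map' _ _ _
  have hFΩ : ∀ y : Fin (n + 1) → AlgebraicClosure L,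
      eval y (MvPolynomial.map (algebraMap L (AlgebraicClosure L)) F) =
        aeval y (frm c) := by
    intro y
    rw [hF]
    unfold up
    rw [MvPolynomial.map_map, ← IsScalarTower.algebraMap_eq, eval_map, ← aeval_def]
  have hqΩ : ∀ l, MvPolynomial.map (algebraMap L (AlgebraicClosure L))
      (frm fun a => algebraMap k0 L (q l a)) =
        frm fun a => algebraMap k0 (AlgebraicClosure L) (q l a) := by
    intro l
    rw [Pool.Agent.H70.BO.XC.frm_map]
    congr 1
  have hqzΩ : ∀ l, resC zΩ (frm fun a => algebraMap k0 (AlgebraicClosure L) (q l a)) = 0 := by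
    intro l
    rw [← hqΩ, hres, hqz, Polynomial.map_zero]
  -- the three zeros
  obtain ⟨z', hC, hz0, hz1, hz2⟩ := hMV3 (AlgebraicClosure L) n r d
    (MvPolynomial.map (algebraMap L (AlgebraicClosure L)) F) zΩ (hFh.map _) hd hr hzΩi (by
      rw [hres]
      rcases hTZE L n r d F z hFh (by rw [hF]; exact hev) (by rw [hF]; exact hT) with h | h
      · left
        exact h
      · right
        obtain ⟨α, β, h1, h2, h3, h4⟩ := h
        refine ⟨α, β, h1, h2, h3, ?_⟩
        rw [hzΩ]
        rw [hevΩ, h4, map_zero])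
  obtain ⟨W, hW⟩ := Pool.Agent.H17.EE.exists_leftInv hC.ind
  obtain ⟨I, hI⟩ := sys r c q
  have hsol : Sol c q z' fun i l => W l i := by
    refine ⟨?_, ?_, ?_, ?_, ?_⟩
    · rw [← hFΩ]
      exact hz0
    · rw [← hFΩ]
      exact hz1
    · rw [← hFΩ]
      exact hz2
    · intro i i'
      rw [Finset.sum_congr rfl fun l _ => mul_comm (W l i) (z' i' l), hW]
      by_cases h : i = i'
      · rw [if_pos h, if_pos h.symm]
      · rw [if_neg h, if_neg (Ne.symm h)]
    · intro l
      exact hC.van 2 _ (frm_homog _) (hqzΩ l)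
  obtain ⟨U, Y, hUm, hUs, hU1, hUY⟩ := hNSS k0 (AlgebraicClosure L) _ I _
    ((hI (AlgebraicClosure L) z' fun i l => W l i).2 hsol)
  -- the data at a root
  have hroot : ∀ θ : AlgebraicClosure L, Polynomial.aeval θ (U.map (algebraMap k0 L)) = 0 →
      Sol c q (fun i l => Polynomial.aeval θ (Y (Sum.inl (i, l))))
        (fun i l => Polynomial.aeval θ (Y (Sum.inr (i, l)))) := by
    intro θ hθ
    rw [Polynomial.aeval_map_algebraMap] at hθ
    rw [← hI]
    intro f hf
    obtain ⟨G, hG⟩ := hUY f hf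
    have h1 := congrArg (Polynomial.aeval θ) hG
    rw [map_mul, hθ, zero_mul, MvPolynomial.comp_aeval_apply] at h1
    rw [← h1]
    congr 2
    funext t
    rcases t with t | t <;> rfl
  have hindq : LinearIndependent (AlgebraicClosure L)
      (fun l a => algebraMap k0 (AlgebraicClosure L) (q l a)) := by
    have h1 : ∃ W : Mon (n + 1) 2 → Fin M → k0, ∀ i j, ∑ l, q i l * W l j =
        if i = j then 1 else 0 := by
      have hinj : LinearMap.ker (Fintype.linearCombination k0 q) = ⊥ := by
        rw [LinearMap.ker_eq_bot]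
        exact hq.fintypeLinearCombination_injective
      obtain ⟨g, hg⟩ := LinearMap.exists_leftInverse_of_injective _ hinj
      refine ⟨fun l j => g (Pi.single l 1) j, fun i j => ?_⟩
      have h := LinearMap.congr_fun hg (Pi.single i 1)
      have h1 : g (q i) = Pi.single i 1 := by
        simpa [Fintype.linearCombination_apply, Pi.single_apply] using h
      have h2 : g (q i) j = ∑ l, q i l * g (Pi.single l 1) j := by
        conv_lhs => rw [← Finset.univ_sum_single (q i)]
        rw [map_sum, Finset.sum_apply]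
        refine Finset.sum_congr rfl fun l _ => ?_
        have h3 : (Pi.single l (q i l) : Mon (n + 1) 2 → k0) = q i l • Pi.single l 1 := by
          rw [← Pi.single_smul]
          simp
        rw [h3, map_smul, Pi.smul_apply, smul_eq_mul]
      rw [← h2, h1, Pi.single_apply]
      by_cases hij : i = j
      · rw [if_pos hij, if_pos hij.symm]
      · rw [if_neg hij, if_neg (Ne.symm hij)]
    obtain ⟨W, hW⟩ := h1
    rw [Fintype.linearIndependent_iff]
    intro g hg j
    have h2 : ∑ l, (∑ i, g i * algebraMap k0 (AlgebraicClosure L) (q i l)) *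
        algebraMap k0 (AlgebraicClosure L) (W l j) = 0 := by
      refine Finset.sum_eq_zero fun l _ => ?_
      have h3 := congrFun hg l
      rw [Finset.sum_apply] at h3
      simp only [Pi.smul_apply, smul_eq_mul, Pi.zero_apply] at h3
      rw [h3, zero_mul]
    have h4 : ∑ l, (∑ i, g i * algebraMap k0 (AlgebraicClosure L) (q i l)) *
        algebraMap k0 (AlgebraicClosure L) (W l j) =
        ∑ i, g i * algebraMap k0 (AlgebraicClosure L) (∑ l, q i l * W l j) := by
      simp only [map_sum, map_mul, Finset.sum_mul, Finset.mul_sum]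
      rw [Finset.sum_comm]
      exact Finset.sum_congr rfl fun i _ => Finset.sum_congr rfl fun l _ => by ring
    rw [h4] at h2
    simp only [hW] at h2
    rw [Finset.sum_eq_single j] at h2
    · rw [if_pos rfl, map_one, mul_one] at h2
      exact h2
    · intro i _ hi
      rw [if_neg hi, map_zero, mul_zero]
    · intro h
      exact absurd (Finset.mem_univ j) h
  have hsep : (U.map (algebraMap k0 L)).Separable := hUs.map
  have haev : ∀ (θ : AlgebraicClosure L) (P : Polynomial k0),
      Polynomial.aeval θ (P.map (algebraMap k0 L)) = Polynomial.aeval θ P := fun θ P =>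
    Polynomial.aeval_map_algebraMap L θ P
  have haF : ∀ (θ : AlgebraicClosure L) (g : Fin (n + 1) → Polynomial L),
      Polynomial.aeval θ (aeval g (up L (frm c))) =
        aeval (fun l => Polynomial.aeval θ (g l)) (frm c) := by
    intro θ g
    rw [MvPolynomial.comp_aeval_apply]
    unfold up
    rw [MvPolynomial.aeval_map_algebraMap]
  refine ⟨U, fun i l => Y (Sum.inl (i, l)), fun i l => Y (Sum.inr (i, l)), ?_⟩
  have hAV : ∀ (θ : AlgebraicClosure L) (i : Fin (r + 1)), Polynomial.aeval θ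
      (AV (fun i l => (Y (Sum.inr (i, l))).map (algebraMap k0 L)) (z 0) i) =
        ∑ l, Polynomial.aeval θ (Y (Sum.inr (i, l))) * zΩ 0 l := by
    intro θ i
    unfold AV
    rw [map_sum]
    refine Finset.sum_congr rfl fun l _ => ?_
    rw [map_mul, haev, Polynomial.aeval_C, hzΩ]
  have hE := fun (θ : AlgebraicClosure L)
    (hθ : Polynomial.aeval θ (U.map (algebraMap k0 L)) = 0) =>
    hEQV (AlgebraicClosure L) n r M (fun l a => algebraMap k0 (AlgebraicClosure L) (q l a)) zΩ
      (fun i l => Polynomial.aeval θ (Y (Sum.inl (i, l)))) hM hindq hzΩi hqzΩ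
      (hroot θ hθ).qd (fun i l => Polynomial.aeval θ (Y (Sum.inr (i, l)))) (hroot θ hθ).inv
  refine ⟨hUm.map _, hsep, ?_, ?_, ?_, ?_, ?_, ?_, ?_⟩
  · rw [Polynomial.natDegree_map]
    exact hU1
  · refine dvd_of_roots hsep fun θ hθ => ?_
    rw [haF]
    simp only [haev]
    exact (hroot θ hθ).p0
  · refine dvd_of_roots hsep fun θ hθ => ?_
    rw [haF]
    simp only [map_sum, haev]
    exact (hroot θ hθ).p1
  · refine dvd_of_roots hsep fun θ hθ => ?_
    rw [haF]
    simp only [haev]
    exact (hroot θ hθ).p2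
  · intro i i'
    refine dvd_of_roots hsep fun θ hθ => ?_
    rw [map_sub, map_sum]
    simp only [map_mul, haev]
    rw [(hroot θ hθ).inv]
    by_cases h : i = i'
    · rw [if_pos h, if_pos h, map_one, sub_self]
    · rw [if_neg h, if_neg h, map_zero, sub_self]
  · intro j
    refine dvd_of_roots hsep fun θ hθ => ?_
    rw [map_sub, map_sum, Polynomial.aeval_C]
    simp only [map_mul, haev, hAV]
    rw [(hE θ hθ).1 j, hzΩ, sub_self]
  · intro i i' l l' hil
    refine dvd_of_roots hsep fun θ hθ => ?_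
    rw [map_sub, map_mul, map_mul]
    simp only [hAV]
    rw [(hE θ hθ).2 i i' l l' hil, sub_self]

end Pool.Agent.H17.EQ
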