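import Pool.Agent.H17.EQ.TargetsQ
import Pool.Agent.H17.BO.CMP

/-!
# MP_70ba79_ag, Theorem E, part Q: row QQP (Proposition 7 for a point with a coordinate `1`)
-/

set_option autoImplicit false

namespace Pool.Agent.H17.EQ

open MvPolynomial SC Pool.Agent.H27.LV Pool.Agent.H17.VG Pool.Agent.H17.BO Pool.Agent.H30.EE

/-- a counterexample with the constant `C` -/
structure CEQ (n d r C : ℕ) where
  k : Type
  K : Type
  [ik : Field k]
  [iac : IsAlgClosed k]
  [icz : CharZero k]
  [iK : Field K]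
  [ia : Algebra k K]
  [iess : Algebra.EssFiniteType k K]
  htr : Algebra.trdeg k K = 1
  D : Derivation k K K
  hD : D ≠ 0
  c : Mon (n + 1) d → k
  z : Fin (r + 1) → Fin (n + 1) → K
  p : Fin (n + 1)
  hz : LinearIndependent K z
  hp : z 0 p = 1
  hF : eval (z 0) (up K (frm c)) ≠ 0
  S : Finset (DV k K)
  hS : ∀ v, v ∉ S → v.ord (eval (z 0) (up K (frm c))) = -(d * poleOrder v (z 0))
  hnn : 0 ≤ canDeg D + S.card
  hT : ¬ TwoR d (up K (frm c)) z
  B : ℕ
  hB : Da k 2 z ≤ B
  hnot : ¬ ((deg k (z 0) : ℤ) ≤ C * (canDeg D + S.card + B))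

attribute [instance] CEQ.ik CEQ.iac CEQ.icz CEQ.iK CEQ.ia CEQ.iess

theorem pf_QQP (hHTA : T_HTA) (hULT : T_ULT) (hQBA : T_QBA) (hTWR : T_TWR) (hQAL : T_QAL)
    (hTCR : T_TCR) (hMCR : T_MCR) : T_QQP := by
  classical
  intro n d r hr hd
  by_contra hcon
  have hne : ∀ C, Nonempty (CEQ n d r C) := by
    intro C
    by_contra hemp
    apply hcon
    refine ⟨C, ?_⟩
    intro k K _ _ _ _ _ _ htr D hD c z p hz hp hF S hS hnn hT B hB
    by_contra hnot
    refine hemp ⟨?_⟩
    exact
      { k := k, K := K, htr := htr, D := D, hD := hD, c := c, z := z, p := p, hz := hz, hp := hp,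
        hF := hF, S := S, hS := hS, hnn := hnn, hT := hT, B := B, hB := hB, hnot := hnot }
  obtain ⟨X⟩ : Nonempty (∀ C, CEQ n d r C) := ⟨fun C => (hne C).some⟩
  have hcz : ∀ i, CharZero (X i).K := fun i =>
    charZero_of_injective_algebraMap (algebraMap (X i).k (X i).K).injective
  obtain ⟨L, iL, iLz, k', ik', ik'z, ia', π, hsurj, hker, hrange, hac⟩ :=
    hULT (fun i => (X i).k) (fun i => (X i).K) (fun i => (X i).htr) (fun i => (X i).B)
  -- constants
  have hconst : ∀ f : ∀ i, (X i).k, ∃ r : k', algebraMap k' L r =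
      π fun i => algebraMap (X i).k (X i).K (f i) := by
    intro f
    obtain ⟨r, hr⟩ := (hrange fun i => algebraMap (X i).k (X i).K (f i)).2
      ⟨0, Filter.Eventually.of_forall fun i => by
        have := (hHTA (X i).k (X i).K (X i).htr 0 0).2.2.2.1 (f i)
        rw [this]; exact Nat.zero_le _⟩
    exact ⟨r, hr⟩
  choose c' hc' using fun M => hconst fun i => (X i).c M
  have hFL : up L (frm c') = MvPolynomial.map π
      (frmR fun M => (fun i => algebraMap (X i).k (X i).K ((X i).c M) : ∀ i, (X i).K)) := by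
    rw [up_frmR, map_frmR]
    congr 1
    funext M
    exact hc' M
  have hFi : ∀ i, up (X i).K (frm (X i).c) = MvPolynomial.map (Pi.evalRingHom (fun i => (X i).K) i)
      (frmR fun M => (fun i => algebraMap (X i).k (X i).K ((X i).c M) : ∀ i, (X i).K)) := by
    intro i
    rw [up_frmR, map_frmR]
    rfl
  have hF : eval (fun j => π fun i => (X i).z 0 j) (up L (frm c')) ≠ 0 := by
    intro h0
    have h1 := map_evalR π (fun j => (fun i => (X i).z 0 j : ∀ i, (X i).K))
      (frmR fun M => (fun i => algebraMap (X i).k (X i).K ((X i).c M) : ∀ i, (X i).K))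
    rw [← hFL] at h1
    have h2 : eval (fun j => (fun i => (X i).z 0 j : ∀ i, (X i).K))
      (frmR fun M => (fun i => algebraMap (X i).k (X i).K ((X i).c M) : ∀ i, (X i).K)) =
      fun i => eval ((X i).z 0) (up (X i).K (frm (X i).c)) := by
      funext i
      have h4 := map_evalR (Pi.evalRingHom (fun i => (X i).K) i)
        (fun j => (fun i => (X i).z 0 j : ∀ i, (X i).K))
        (frmR fun M => (fun i => algebraMap (X i).k (X i).K ((X i).c M) : ∀ i, (X i).K))
      rw [← hFi] at h4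
      exact h4
    rw [h2] at h1
    have h5 : π (fun i => eval ((X i).z 0) (up (X i).K (frm (X i).c))) = 0 := h1.trans h0
    obtain ⟨i, hi⟩ := ((hker _).1 h5).exists
    exact (X i).hF hi
  obtain ⟨hzi, M, q, hM, hq, hqz⟩ := hQBA (fun i => (X i).k) (fun i => (X i).K)
    (fun i => (X i).htr) (fun i => (X i).B) L k' π hsurj hker hrange n r (fun i => (X i).z)
    (fun i => (X i).hz) (fun i => (X i).hB)
  have hT : ¬ TwoR d (up L (frm c')) (fun a j => π fun i => (X i).z a j) := by
    intro h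
    obtain ⟨i, hi⟩ := (hTWR (fun i => (X i).k) (fun i => (X i).K) L k' π hsurj hker n d r
      (fun i => (X i).z) (fun i => (X i).c) c' hc' h).exists
    exact (X i).hT hi
  obtain ⟨U, Z, V, hC⟩ := hQAL k' L n d r M c' q (fun a j => π fun i => (X i).z a j) hd hr hM hq
    hzi hqz hF hT
  obtain ⟨N, hN⟩ := hTCR (fun i => (X i).k) (fun i => (X i).K) (fun i => (X i).htr)
    (fun i => (X i).B) L k' π hsurj hker hrange n d r (fun i => (X i).z 0) (fun i => (X i).c)
    c' hc' U Z V hC
  obtain ⟨r', rfl⟩ : ∃ r', r = r' + 1 := ⟨r - 1, by omega⟩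
  obtain ⟨C, hCC⟩ := hMCR n r' d N hd
  have hge : ∀ N : ℕ, ∀ᶠ i in (Filter.hyperfilter ℕ : Filter ℕ), N ≤ i := fun N =>
    (Filter.eventually_ge_atTop N).filter_mono Nat.hyperfilter_le_atTop
  obtain ⟨i, ⟨U', Z', V', h1, h2⟩, hi2⟩ := (hN.and (hge (C * (N + 1)))).exists
  have h3 := hCC (X i).k (X i).K (X i).htr (X i).D (X i).hD (frm (X i).c) (frm_homog _)
    ((X i).z 0) (X i).p (X i).hp (X i).hF U' Z' V' (N * (X i).B) h1 h2 (X i).S (X i).hS (X i).hnn
  apply (X i).hnot
  refine h3.trans ?_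
  have h4 := (X i).hnn
  have h5 : ((C * (N + 1) : ℕ) : ℤ) ≤ i := by exact_mod_cast hi2
  have h6 : (0 : ℤ) ≤ (X i).B := by positivity
  have h7 : ((N * (X i).B : ℕ) : ℤ) = N * (X i).B := by push_cast; ring
  rw [h7]
  calc (C : ℤ) * (canDeg (X i).D + (X i).S.card + N * (X i).B)
      ≤ ((C * (N + 1) : ℕ) : ℤ) * (canDeg (X i).D + (X i).S.card + (X i).B) := by
        push_cast
        have h8 : (0 : ℤ) ≤ C * (N * (canDeg (X i).D + (X i).S.card)) := by positivity
        have h9 : (0 : ℤ) ≤ C * (X i).B := by positivity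
        nlinarith [h8, h9]
    _ ≤ i * (canDeg (X i).D + (X i).S.card + (X i).B) :=
        mul_le_mul_of_nonneg_right h5 (by linarith)

end Pool.Agent.H17.EQ
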