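import Pool.Agent.H17.EQ.TargetsQ
import Pool.Agent.H15.BO.TFE

/-!
# MP_70ba79_ag, Theorem E, part Q: row TWR (transfer of curves with at most two zeros)
-/

set_option autoImplicit false

namespace Pool.Agent.H17.EQ

open MvPolynomial SC Pool.Agent.H27.LV Pool.Agent.H17.VG Pool.Agent.H17.BO Pool.Agent.H30.EE Filter

/-- restriction to a curve over a ring -/
noncomputable def rsR {S : Type} [CommRing S] {n r : ℕ} (z : Fin (r + 1) → Fin (n + 1) → S)
    (G : MvPolynomial (Fin (n + 1)) S) : Polynomial S :=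
  aeval (fun i => ∑ j : Fin (r + 1), Polynomial.C (z j i) * Polynomial.X ^ (j : ℕ)) G

lemma rsR_map {S T : Type} [CommRing S] [CommRing T] {n r : ℕ} (φ : S →+* T)
    (z : Fin (r + 1) → Fin (n + 1) → S) (G : MvPolynomial (Fin (n + 1)) S) :
    (rsR z G).map φ = rsR (fun j i => φ (z j i)) (MvPolynomial.map φ G) := by
  unfold rsR
  induction G using MvPolynomial.induction_on with
  | C a =>
    rw [MvPolynomial.algHom_C, MvPolynomial.map_C, MvPolynomial.algHom_C,
      Polynomial.algebraMap_apply, Polynomial.algebraMap_apply, Polynomial.map_C]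
    rfl
  | add p q hp hq => rw [map_add, Polynomial.map_add, hp, hq, map_add, map_add]
  | mul_X p i hp =>
    rw [map_mul, Polynomial.map_mul, hp, map_mul, map_mul, aeval_X, MvPolynomial.map_X, aeval_X,
      Polynomial.map_sum]
    congr 1
    refine Finset.sum_congr rfl fun j _ => ?_
    rw [Polynomial.map_mul, Polynomial.map_pow, Polynomial.map_C, Polynomial.map_X]

/-- the polynomial of the condition of two zeros -/
noncomputable def relR {S : Type} [CommRing S] {n r : ℕ} (z : Fin (r + 1) → Fin (n + 1) → S)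
    (G : MvPolynomial (Fin (n + 1)) S) (α β : S) (i j : ℕ) : Polynomial S :=
  rsR z G - Polynomial.C (eval (z 0) G) * (1 + Polynomial.C α * Polynomial.X) ^ i *
    (1 + Polynomial.C β * Polynomial.X) ^ j

lemma relR_map {S T : Type} [CommRing S] [CommRing T] {n r : ℕ} (φ : S →+* T)
    (z : Fin (r + 1) → Fin (n + 1) → S) (G : MvPolynomial (Fin (n + 1)) S) (α β : S) (i j : ℕ) :
    (relR z G α β i j).map φ = relR (fun a l => φ (z a l))
      (MvPolynomial.map φ G) (φ α) (φ β) i j := by
  unfold relR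
  have h : eval (fun i => φ (z 0 i)) (MvPolynomial.map φ G) = φ (eval (z 0) G) := by
    rw [eval_map]
    exact (MvPolynomial.eval₂_comp_left φ (RingHom.id S) (z 0) G).symm
  rw [Polynomial.map_sub, rsR_map, h]
  simp

/-- the condition of two zeros is the vanishing of `relR` -/
lemma relR_iff {K : Type} [Field K] {n r : ℕ} (z : Fin (r + 1) → Fin (n + 1) → K)
    (G : MvPolynomial (Fin (n + 1)) K) (α β : AlgebraicClosure K) (i j : ℕ) :
    (resC z G).map (algebraMap K (AlgebraicClosure K)) =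
      Polynomial.C (algebraMap K (AlgebraicClosure K) (eval (z 0) G)) *
        (1 + Polynomial.C α * Polynomial.X) ^ i * (1 + Polynomial.C β * Polynomial.X) ^ j ↔
    relR (fun a l => algebraMap K (AlgebraicClosure K) (z a l))
      (MvPolynomial.map (algebraMap K (AlgebraicClosure K)) G) α β i j = 0 := by
  unfold relR
  have h : eval (fun l => algebraMap K (AlgebraicClosure K) (z 0 l))
      (MvPolynomial.map (algebraMap K (AlgebraicClosure K)) G) =
      algebraMap K (AlgebraicClosure K) (eval (z 0) G) := by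
    rw [eval_map]
    exact (MvPolynomial.eval₂_comp_left (algebraMap K (AlgebraicClosure K))
      (RingHom.id K) (z 0) G).symm
  rw [h, ← rsR_map, sub_eq_zero]
  rfl

theorem pf_TWR : T_TWR := by
  classical
  intro k K _ _ _ _ L _ _ k' _ _ π hπs hπ n d r z c c' hc hex
  obtain ⟨α, β, i, j, hij, hres⟩ := hex
  -- the ultraproduct of the algebraic closures
  obtain ⟨M, _, _, ρ, hρs, hρ⟩ := Pool.Agent.H72.BO.pf_ULF fun i => AlgebraicClosure (K i)
  have hM : IsAlgClosed M := Pool.Agent.H15.BO.ultra_closed _ M ρ hρs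
  obtain ⟨emb, hemb⟩ : ∃ emb : (∀ i, K i) →+* ∀ i, AlgebraicClosure (K i),
      ∀ f i, emb f i = algebraMap (K i) (AlgebraicClosure (K i)) (f i) :=
    ⟨RingHom.pi fun i => (algebraMap (K i) (AlgebraicClosure (K i))).comp (Pi.evalRingHom _ i),
      fun f i => rfl⟩
  obtain ⟨ι, hι⟩ : ∃ ι : L →+* M, ∀ f, ι (π f) = ρ (emb f) := by
    refine ⟨π.liftOfRightInverse _ (Function.rightInverse_surjInv hπs)
      ⟨ρ.comp emb, fun f hf => ?_⟩, fun f => ?_⟩
    · rw [RingHom.mem_ker] at hf ⊢
      rw [hπ] at hf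
      rw [RingHom.comp_apply, hρ]
      filter_upwards [hf] with i hi
      rw [hemb, hi, map_zero]
    · rw [RingHom.liftOfRightInverse_comp_apply]
      rfl
  let _ : Algebra L M := ι.toAlgebra
  obtain ⟨ψ⟩ : Nonempty (AlgebraicClosure L →ₐ[L] M) := ⟨IsAlgClosed.lift⟩
  obtain ⟨αf, hαf⟩ := hρs (ψ α)
  obtain ⟨βf, hβf⟩ := hρs (ψ β)
  -- the relation
  obtain ⟨P, hP⟩ : ∃ P : Polynomial (∀ i, AlgebraicClosure (K i)), P = relR
      (fun a l => emb fun i => z i a l)
      (Pool.Agent.H15.BO.frR fun M => emb fun i => algebraMap (k i) (K i) (c i M)) αf βf i j :=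
    ⟨_, rfl⟩
  have hP0 : P.map ρ = 0 := by
    rw [hP, relR_map, Pool.Agent.H15.BO.frR_map]
    rw [relR_iff] at hres
    have h1 := congrArg (Polynomial.map (ψ : AlgebraicClosure L →+* M)) hres
    rw [relR_map, Polynomial.map_zero, Pool.Agent.H15.BO.up_frm_eq,
      Pool.Agent.H15.BO.frR_map, Pool.Agent.H15.BO.frR_map] at h1
    have h2 : ∀ z : L, (ψ : AlgebraicClosure L →+* M) (algebraMap L (AlgebraicClosure L) z) =
        ι z := fun z => ψ.commutes z
    simp only [h2, hc, hι] at h1
    rw [hαf, hβf]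
    exact h1
  have hPe : ∀ᶠ s in (hyperfilter ℕ : Filter ℕ), P.map (Pi.evalRingHom _ s) = 0 := by
    have h1 : ∀ a ∈ P.support, ∀ᶠ s in (hyperfilter ℕ : Filter ℕ), P.coeff a s = 0 := by
      intro a _
      rw [← hρ, ← Polynomial.coeff_map, hP0, Polynomial.coeff_zero]
    rw [← Finset.eventually_all] at h1
    filter_upwards [h1] with s hs
    ext a
    rw [Polynomial.coeff_map, Polynomial.coeff_zero]
    by_cases ha : a ∈ P.support
    · exact hs a ha
    · rw [Polynomial.notMem_support_iff.1 ha, map_zero]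
  filter_upwards [hPe] with s h2
  refine ⟨αf s, βf s, i, j, hij, ?_⟩
  rw [hP, relR_map, Pool.Agent.H15.BO.frR_map] at h2
  have h3 : ∀ f, (Pi.evalRingHom (fun i => AlgebraicClosure (K i)) s) (emb f) =
      algebraMap (K s) (AlgebraicClosure (K s)) (f s) := fun f => hemb f s
  simp only [h3, Pi.evalRingHom_apply] at h2
  have h4 := (relR_iff (z s) (up (K s) (frm (c s))) (αf s) (βf s) i j).2
  rw [Pool.Agent.H15.BO.up_frm_eq, Pool.Agent.H15.BO.frR_map] at h4
  rw [Pool.Agent.H15.BO.up_frm_eq]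
  exact h4 h2

end Pool.Agent.H17.EQ
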