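import Pool.Agent.H30.EE.TargetsU
import Pool.Agent.H17.BO.TargetsE

/-!
# MP_70ba79_ag: targets of the board `ee_modules`, part Q (the curve and three points, section 7)
-/

set_option autoImplicit false

namespace Pool.Agent.H17.EQ

open MvPolynomial SC Pool.Agent.H27.LV Pool.Agent.H17.VG Pool.Agent.H17.BO Pool.Agent.H30.EE

section Defs

variable {K : Type} [Field K] {n r : ℕ}

/-- coordinates of `x`: polynomials in a root of `U` -/
noncomputable def AV (V : Fin (r + 1) → Fin (n + 1) → Polynomial K) (x : Fin (n + 1) → K)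
    (i : Fin (r + 1)) : Polynomial K := ∑ l, V i l * Polynomial.C (x l)

/-- A rational normal curve `∑ s ^ i Z_i` through `x` with zeros of `F` at `s = 0, 1, ∞`. The `Z_i`
are polynomials in a root of `U`, and `V` is a left inverse. -/
structure ConR (F : MvPolynomial (Fin (n + 1)) K) (x : Fin (n + 1) → K) (U : Polynomial K)
    (Z V : Fin (r + 1) → Fin (n + 1) → Polynomial K) : Prop where
  monic : U.Monic
  sep : U.Separable
  deg1 : 1 ≤ U.natDegree
  p0 : U ∣ aeval (Z 0) F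
  p1 : U ∣ aeval (fun j => ∑ i, Z i j) F
  p2 : U ∣ aeval (Z (Fin.last r)) F
  inv : ∀ i i', U ∣ ∑ l, V i l * Z i' l - (if i = i' then 1 else 0)
  pt : ∀ j, U ∣ ∑ i, Z i j * AV V x i - Polynomial.C (x j)
  rnc : ∀ i i' l l' : Fin (r + 1), (i : ℕ) + i' = l + l' →
    U ∣ AV V x i * AV V x i' - AV V x l * AV V x l'

/-- heights of the data of `ConR` are at most `B`, degrees at most `N` -/
structure ConRH (k : Type) {K : Type} [Field k] [Field K] [Algebra k K] {n r : ℕ} (N B : ℕ)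
    (U : Polynomial K) (Z V : Fin (r + 1) → Fin (n + 1) → Polynomial K) : Prop where
  hU : hP k U ≤ B
  hZ : ∀ i l, hP k (Z i l) ≤ B
  hV : ∀ i l, hP k (V i l) ≤ B
  dU : U.natDegree ≤ N
  dZ : ∀ i l, (Z i l).natDegree ≤ N
  dV : ∀ i l, (V i l).natDegree ≤ N

/-- `ConR` at a root of `U` -/
structure PtR (F : MvPolynomial (Fin (n + 1)) K) (x : Fin (n + 1) → K)
    (ζ ν : Fin (r + 1) → Fin (n + 1) → K) : Prop where
  p0 : eval (ζ 0) F = 0
  p1 : eval (fun j => ∑ i, ζ i j) F = 0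
  p2 : eval (ζ (Fin.last r)) F = 0
  inv : ∀ i i', ∑ l, ν i l * ζ i' l = if i = i' then 1 else 0
  pt : ∀ j, ∑ i, ζ i j * ∑ l, ν i l * x l = x j
  rnc : ∀ i i' l l' : Fin (r + 1), (i : ℕ) + i' = l + l' →
    (∑ j, ν i j * x j) * (∑ j, ν i' j * x j) = (∑ j, ν l j * x j) * (∑ j, ν l' j * x j)

/-- change of the parameter: the forms which vanish on `z` vanish on `z'` -/
structure Chg (z z' : Fin (r + 1) → Fin (n + 1) → K) : Prop where
  ind : LinearIndependent K z'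
  van : ∀ (e : ℕ) (G : MvPolynomial (Fin (n + 1)) K), G.IsHomogeneous e → resC z G = 0 →
    resC z' G = 0

end Defs

/-- OPS: elementary changes of the parameter: shift, scaling, inversion -/
def T_OPS : Prop := ∀ (K : Type) [Field K] [CharZero K] (n r : ℕ)
  (z : Fin (r + 1) → Fin (n + 1) → K), LinearIndependent K z →
  (∀ s : K, ∃ z' : Fin (r + 1) → Fin (n + 1) → K, Chg z z' ∧
    z' (Fin.last r) = z (Fin.last r) ∧
    ∀ (t : K) (j : Fin (n + 1)), ∑ i : Fin (r + 1), t ^ (i : ℕ) * z' i j =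
      ∑ i : Fin (r + 1), (t + s) ^ (i : ℕ) * z i j) ∧
  (∀ a : K, a ≠ 0 → Chg z fun i j => a ^ (i : ℕ) * z i j) ∧ Chg z fun i => z (Fin.rev i)

/-- MV3: three zeros (one of them may be infinite) are moved to `0, 1, ∞` -/
def T_MV3 : Prop := ∀ (K : Type) [Field K] [CharZero K] (n r d : ℕ)
  (F : MvPolynomial (Fin (n + 1)) K) (z : Fin (r + 1) → Fin (n + 1) → K), F.IsHomogeneous d →
  1 ≤ d → 1 ≤ r → LinearIndependent K z →
  ((∃ α β γ : K, α ≠ β ∧ β ≠ γ ∧ α ≠ γ ∧ (resC z F).eval α = 0 ∧ (resC z F).eval β = 0 ∧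
      (resC z F).eval γ = 0) ∨
    (∃ α β : K, α ≠ β ∧ (resC z F).eval α = 0 ∧ (resC z F).eval β = 0 ∧
      eval (z (Fin.last r)) F = 0)) →
  ∃ z' : Fin (r + 1) → Fin (n + 1) → K, Chg z z' ∧ eval (z' 0) F = 0 ∧
    eval (fun j => ∑ i, z' i j) F = 0 ∧ eval (z' (Fin.last r)) F = 0

/-- TZE: a curve with more than two zeros has three zeros over the algebraic closure -/
def T_TZE : Prop := ∀ (K : Type) [Field K] [CharZero K] (n r d : ℕ)
  (F : MvPolynomial (Fin (n + 1)) K) (z : Fin (r + 1) → Fin (n + 1) → K), F.IsHomogeneous d →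
  eval (z 0) F ≠ 0 → ¬ TwoR d F z →
  (∃ α β γ : AlgebraicClosure K, α ≠ β ∧ β ≠ γ ∧ α ≠ γ ∧
    ((resC z F).map (algebraMap K (AlgebraicClosure K))).eval α = 0 ∧
    ((resC z F).map (algebraMap K (AlgebraicClosure K))).eval β = 0 ∧
    ((resC z F).map (algebraMap K (AlgebraicClosure K))).eval γ = 0) ∨
  (∃ α β : AlgebraicClosure K, α ≠ β ∧
    ((resC z F).map (algebraMap K (AlgebraicClosure K))).eval α = 0 ∧
    ((resC z F).map (algebraMap K (AlgebraicClosure K))).eval β = 0 ∧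
    eval (z (Fin.last r)) F = 0)

/-- NSS: a system of polynomial equations over `k0` with a solution in an extension field has a
solution in `k0 [T] / U`, with `U` monic and separable -/
def T_NSS : Prop := ∀ (k0 Ω : Type) [Field k0] [CharZero k0] [Field Ω] [Algebra k0 Ω] (τ : Type)
  [Finite τ] (I : Set (MvPolynomial τ k0)) (y : τ → Ω), (∀ f ∈ I, aeval y f = 0) →
  ∃ (U : Polynomial k0) (Y : τ → Polynomial k0), U.Monic ∧ U.Separable ∧ 1 ≤ U.natDegree ∧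
    ∀ f ∈ I, U ∣ aeval Y f

/-- EQV: the quadratic forms determine the curve -/
def T_EQV : Prop := ∀ (L : Type) [Field L] [CharZero L] (n r M : ℕ)
  (q : Fin M → Mon (n + 1) 2 → L) (z z' : Fin (r + 1) → Fin (n + 1) → L),
  M + (2 * r + 1) = Fintype.card (Mon (n + 1) 2) → LinearIndependent L q →
  LinearIndependent L z → (∀ l, resC z (frm (q l)) = 0) → (∀ l, resC z' (frm (q l)) = 0) →
  ∀ ν : Fin (r + 1) → Fin (n + 1) → L,
  (∀ i i', ∑ l, ν i l * z' i' l = if i = i' then 1 else 0) →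
  (∀ j, ∑ i, z' i j * ∑ l, ν i l * z 0 l = z 0 j) ∧
  ∀ i i' l l' : Fin (r + 1), (i : ℕ) + i' = l + l' →
    (∑ j, ν i j * z 0 j) * (∑ j, ν i' j * z 0 j) = (∑ j, ν l j * z 0 j) * (∑ j, ν l' j * z 0 j)

/-- QAL: the algebraic part of Proposition 7 -/
def T_QAL : Prop := ∀ (k0 L : Type) [Field k0] [CharZero k0] [Field L] [CharZero L] [Algebra k0 L]
  (n d r M : ℕ) (c : Mon (n + 1) d → k0) (q : Fin M → Mon (n + 1) 2 → k0)
  (z : Fin (r + 1) → Fin (n + 1) → L), 1 ≤ d → 1 ≤ r →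
  M + (2 * r + 1) = Fintype.card (Mon (n + 1) 2) → LinearIndependent k0 q →
  LinearIndependent L z → (∀ l, resC z (frm fun a => algebraMap k0 L (q l a)) = 0) →
  eval (z 0) (up L (frm c)) ≠ 0 → ¬ TwoR d (up L (frm c)) z →
  ∃ (U : Polynomial k0) (Z V : Fin (r + 1) → Fin (n + 1) → Polynomial k0),
    ConR (up L (frm c)) (z 0) (U.map (algebraMap k0 L)) (fun i l => (Z i l).map (algebraMap k0 L))
      (fun i l => (V i l).map (algebraMap k0 L))

/-- QBA: in the ultraproduct the quadratic forms of a curve of small height have a basis with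
coefficients in `k'` -/
def T_QBA : Prop := ∀ (k K : ℕ → Type) [∀ i, Field (k i)] [∀ i, IsAlgClosed (k i)]
  [∀ i, CharZero (k i)] [∀ i, Field (K i)] [∀ i, Algebra (k i) (K i)]
  [∀ i, Algebra.EssFiniteType (k i) (K i)], (∀ i, Algebra.trdeg (k i) (K i) = 1) →
  ∀ (B : ℕ → ℕ) (L : Type) [Field L] (k' : Type) [Field k'] [Algebra k' L]
    (π : (∀ i, K i) →+* L), Function.Surjective π →
  (∀ f, π f = 0 ↔ ∀ᶠ i in (Filter.hyperfilter ℕ : Filter ℕ), f i = 0) →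
  (∀ f, π f ∈ Set.range (algebraMap k' L) ↔
    ∃ N : ℕ, ∀ᶠ i in (Filter.hyperfilter ℕ : Filter ℕ), h1 (k i) (f i) ≤ N * B i) →
  ∀ (n r : ℕ) (z : ∀ i, Fin (r + 1) → Fin (n + 1) → K i),
  (∀ i, LinearIndependent (K i) (z i)) → (∀ i, Da (k i) 2 (z i) ≤ B i) →
  LinearIndependent L (fun a j => π fun i => z i a j) ∧
  ∃ (M : ℕ) (q : Fin M → Mon (n + 1) 2 → k'), M + (2 * r + 1) = Fintype.card (Mon (n + 1) 2) ∧
    LinearIndependent k' q ∧
    ∀ l, resC (fun a j => π fun i => z i a j) (frm fun a => algebraMap k' L (q l a)) = 0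

/-- TWR: transfer of curves with at most two zeros -/
def T_TWR : Prop := ∀ (k K : ℕ → Type) [∀ i, Field (k i)] [∀ i, Field (K i)]
  [∀ i, CharZero (K i)] [∀ i, Algebra (k i) (K i)] (L : Type) [Field L] [CharZero L]
  (k' : Type) [Field k'] [Algebra k' L] (π : (∀ i, K i) →+* L), Function.Surjective π →
  (∀ f, π f = 0 ↔ ∀ᶠ i in (Filter.hyperfilter ℕ : Filter ℕ), f i = 0) →
  ∀ (n d r : ℕ) (z : ∀ i, Fin (r + 1) → Fin (n + 1) → K i) (c : ∀ i, Mon (n + 1) d → k i)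
    (c' : Mon (n + 1) d → k'),
  (∀ M, algebraMap k' L (c' M) = π fun i => algebraMap (k i) (K i) (c i M)) →
  TwoR d (up L (frm c')) (fun a j => π fun i => z i a j) →
  ∀ᶠ i in (Filter.hyperfilter ℕ : Filter ℕ), TwoR d (up (K i) (frm (c i))) (z i)

/-- TCR: transfer of `ConR` -/
def T_TCR : Prop := ∀ (k K : ℕ → Type) [∀ i, Field (k i)] [∀ i, IsAlgClosed (k i)]
  [∀ i, CharZero (k i)] [∀ i, Field (K i)] [∀ i, Algebra (k i) (K i)]
  [∀ i, Algebra.EssFiniteType (k i) (K i)], (∀ i, Algebra.trdeg (k i) (K i) = 1) →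
  ∀ (B : ℕ → ℕ) (L : Type) [Field L] (k' : Type) [Field k'] [Algebra k' L]
    (π : (∀ i, K i) →+* L), Function.Surjective π →
  (∀ f, π f = 0 ↔ ∀ᶠ i in (Filter.hyperfilter ℕ : Filter ℕ), f i = 0) →
  (∀ f, π f ∈ Set.range (algebraMap k' L) ↔
    ∃ N : ℕ, ∀ᶠ i in (Filter.hyperfilter ℕ : Filter ℕ), h1 (k i) (f i) ≤ N * B i) →
  ∀ (n d r : ℕ) (x : ∀ i, Fin (n + 1) → K i) (c : ∀ i, Mon (n + 1) d → k i)
    (c' : Mon (n + 1) d → k'),
  (∀ M, algebraMap k' L (c' M) = π fun i => algebraMap (k i) (K i) (c i M)) →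
  ∀ (U : Polynomial k') (Z V : Fin (r + 1) → Fin (n + 1) → Polynomial k'),
  ConR (up L (frm c')) (fun j => π fun i => x i j) (U.map (algebraMap k' L))
    (fun i l => (Z i l).map (algebraMap k' L)) (fun i l => (V i l).map (algebraMap k' L)) →
  ∃ N : ℕ, ∀ᶠ i in (Filter.hyperfilter ℕ : Filter ℕ),
    ∃ (U : Polynomial (K i)) (Z V : Fin (r + 1) → Fin (n + 1) → Polynomial (K i)),
      ConR (up (K i) (frm (c i))) (x i) U Z V ∧ ConRH (k i) N (N * B i) U Z V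

/-- ROT: the data at a root -/
def T_ROT : Prop := ∀ (K L : Type) [Field K] [Field L] [Algebra K L] (n r : ℕ)
  (F : MvPolynomial (Fin (n + 1)) K) (x : Fin (n + 1) → K) (U : Polynomial K)
  (Z V : Fin (r + 1) → Fin (n + 1) → Polynomial K), ConR F x U Z V →
  ∀ θ : L, (U.map (algebraMap K L)).eval θ = 0 →
  PtR (up L F) (fun j => algebraMap K L (x j)) (fun i l => Polynomial.aeval θ (Z i l))
    (fun i l => Polynomial.aeval θ (V i l))

/-- ALP: the coordinates of `x` -/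
def T_ALP : Prop := ∀ (K : Type) [Field K] (n r d : ℕ) (F : MvPolynomial (Fin (n + 1)) K)
  (x : Fin (n + 1) → K) (ζ ν : Fin (r + 1 + 1) → Fin (n + 1) → K), 1 ≤ d → F.IsHomogeneous d →
  eval x F ≠ 0 → PtR F x ζ ν → ∀ α : Fin (r + 1 + 1) → K, (∀ i, α i = ∑ l, ν i l * x l) →
  α 0 ≠ 0 ∧ α 1 ≠ 0 ∧ α 1 ≠ α 0 ∧ ∀ i, α i = α 0 * (α 1 / α 0) ^ (i : ℕ)

/-- UNR: the parameter at the good places -/
def T_UNR : Prop := ∀ (k K L : Type) [Field k] [IsAlgClosed k] [CharZero k] [Field K] [Field L]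
  [Algebra k K] [Algebra k L] [Algebra K L] [IsScalarTower k K L] [FiniteDimensional K L]
  [Algebra.EssFiniteType k K], Algebra.trdeg k K = 1 → ∀ (D : Derivation k K K)
  (D' : Derivation k L L), D ≠ 0 → (∀ z : K, D' (algebraMap K L z) = algebraMap K L (D z)) →
  ∀ (n r d : ℕ) (F : MvPolynomial (Fin (n + 1)) k) (x : Fin (n + 1) → K) (p : Fin (n + 1)),
  1 ≤ d → F.IsHomogeneous d → x p = 1 → eval x (up K F) ≠ 0 →
  ∀ (U : Polynomial K) (Z V : Fin (r + 1 + 1) → Fin (n + 1) → Polynomial K),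
  ConR (up K F) x U Z V → ∀ θ : L, (U.map (algebraMap K L)).eval θ = 0 →
  ∀ α : Fin (r + 1 + 1) → L,
  (∀ i, α i = ∑ l, Polynomial.aeval θ (V i l) * algebraMap K L (x l)) →
  ∀ (v : DV k K) (w : DV k L) (e : ℕ), Over v w e → (∀ i, ge v 0 (U.coeff i)) →
  (∀ i l m, ge v 0 ((Z i l).coeff m)) → (∀ i l m, ge v 0 ((V i l).coeff m)) → 0 ≤ w.ord θ →
  w.ord ((Polynomial.derivative (U.map (algebraMap K L))).eval θ) = 0 →
  v.ord (eval x (up K F)) = -(d * poleOrder v x) →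
  w.ord (α 1 / α 0) = 0 ∧ w.ord (1 - α 1 / α 0) = 0 ∧ ge w (e * ordD v D) (D' (α 1 / α 0))

/-- BDR: the bad places -/
def T_BDR : Prop := ∀ n r N : ℕ, ∃ C : ℕ, ∀ (k K : Type) [Field k] [IsAlgClosed k] [CharZero k]
  [Field K] [Algebra k K] [Algebra.EssFiniteType k K], Algebra.trdeg k K = 1 →
  ∀ (U : Polynomial K) (Z V : Fin (r + 1) → Fin (n + 1) → Polynomial K) (B : ℕ), U.Monic →
  U.Separable → ConRH k N B U Z V → ∃ T : Finset (DV k K), T.card ≤ C * B ∧ ∀ v, v ∉ T →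
    (∀ i, ge v 0 (U.coeff i)) ∧ (∀ i l m, ge v 0 ((Z i l).coeff m)) ∧
    (∀ i l m, ge v 0 ((V i l).coeff m)) ∧
    ∀ (L : Type) [Field L] [Algebra K L] [Algebra k L] [IsScalarTower k K L],
      Polynomial.Splits (U.map (algebraMap K L)) → ∀ (w : DV k L) (e : ℕ), Over v w e →
      ∀ θ : L, (U.map (algebraMap K L)).eval θ = 0 → 0 ≤ w.ord θ ∧
        w.ord ((Polynomial.derivative (U.map (algebraMap K L))).eval θ) = 0

/-- HGR: from the parameter to `x` -/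
def T_HGR : Prop := ∀ n r N : ℕ, ∃ C : ℕ, ∀ (k K L : Type) [Field k] [IsAlgClosed k] [CharZero k]
  [Field K] [Field L] [Algebra k K] [Algebra k L] [Algebra K L] [IsScalarTower k K L]
  [FiniteDimensional K L] [Algebra.EssFiniteType k K] [Algebra.EssFiniteType k L],
  Algebra.trdeg k K = 1 → Algebra.trdeg k L = 1 → ∀ (d : ℕ)
  (F : MvPolynomial (Fin (n + 1)) K) (x : Fin (n + 1) → K) (p : Fin (n + 1)), 1 ≤ d →
  F.IsHomogeneous d → x p = 1 → eval x F ≠ 0 →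
  ∀ (U : Polynomial K) (Z V : Fin (r + 1 + 1) → Fin (n + 1) → Polynomial K) (B : ℕ),
  ConR F x U Z V → ConRH k N B U Z V → ∀ θ : L, (U.map (algebraMap K L)).eval θ = 0 →
  ∀ α : Fin (r + 1 + 1) → L,
  (∀ i, α i = ∑ l, Polynomial.aeval θ (V i l) * algebraMap K L (x l)) →
  Module.finrank K L * deg k x ≤ C * (h1 k (α 1 / α 0) + Module.finrank K L * B)

/-- MCR: points on a curve of small height with three points on the hypersurface -/
def T_MCR : Prop := ∀ n r d N : ℕ, 1 ≤ d → ∃ C : ℕ, ∀ (k K : Type) [Field k] [IsAlgClosed k]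
  [CharZero k] [Field K] [Algebra k K] [Algebra.EssFiniteType k K], Algebra.trdeg k K = 1 →
  ∀ (D : Derivation k K K), D ≠ 0 → ∀ (F : MvPolynomial (Fin (n + 1)) k), F.IsHomogeneous d →
  ∀ (x : Fin (n + 1) → K) (p : Fin (n + 1)), x p = 1 → eval x (up K F) ≠ 0 →
  ∀ (U : Polynomial K) (Z V : Fin (r + 1 + 1) → Fin (n + 1) → Polynomial K) (B : ℕ),
  ConR (up K F) x U Z V → ConRH k N B U Z V → ∀ S : Finset (DV k K),
  (∀ v, v ∉ S → v.ord (eval x (up K F)) = -(d * poleOrder v x)) → 0 ≤ canDeg D + S.card →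
  (deg k x : ℤ) ≤ C * (canDeg D + S.card + B)

/-- QQP: Proposition 7 for a point with a coordinate `1` -/
def T_QQP : Prop := ∀ n d r : ℕ, 1 ≤ r → 1 ≤ d → ∃ C : ℕ, ∀ (k K : Type) [Field k]
  [IsAlgClosed k] [CharZero k] [Field K] [Algebra k K] [Algebra.EssFiniteType k K],
  Algebra.trdeg k K = 1 → ∀ (D : Derivation k K K), D ≠ 0 → ∀ (c : Mon (n + 1) d → k)
  (z : Fin (r + 1) → Fin (n + 1) → K) (p : Fin (n + 1)), LinearIndependent K z → z 0 p = 1 →
  eval (z 0) (up K (frm c)) ≠ 0 → ∀ S : Finset (DV k K),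
  (∀ v, v ∉ S → v.ord (eval (z 0) (up K (frm c))) = -(d * poleOrder v (z 0))) →
  0 ≤ canDeg D + S.card → ¬ TwoR d (up K (frm c)) z → ∀ B : ℕ, Da k 2 z ≤ B →
  (deg k (z 0) : ℤ) ≤ C * (canDeg D + S.card + B)

/-- QQQ: Proposition 7 -/
def T_QQQ : Prop := ∀ n d r : ℕ, 1 ≤ r → 1 ≤ d → ∃ C : ℕ, ∀ (k K : Type) [Field k]
  [IsAlgClosed k] [CharZero k] [Field K] [Algebra k K] [Algebra.EssFiniteType k K],
  Algebra.trdeg k K = 1 → ∀ (D : Derivation k K K), D ≠ 0 → ∀ (c : Mon (n + 1) d → k)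
  (z : Fin (r + 1) → Fin (n + 1) → K), LinearIndependent K z →
  eval (z 0) (up K (frm c)) ≠ 0 → ∀ S : Finset (DV k K),
  (∀ v, v ∉ S → v.ord (eval (z 0) (up K (frm c))) = d * mo v (z 0)) →
  0 ≤ canDeg D + S.card → ¬ TwoR d (up K (frm c)) z → ∀ B : ℕ, Da k 2 z ≤ B →
  hgt k (z 0) ≤ C * (canDeg D + S.card + B)

end Pool.Agent.H17.EQ
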