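import Pool.Agent.H17.EQ.NSS
import Pool.Agent.H17.EQ.TWR
import Pool.Agent.H17.EQ.QAL
import Pool.Agent.H17.EQ.QQP
import Pool.Agent.H80.EE.QQQ
import Pool.Agent.H80.EE.EQV
import Pool.Agent.H63.EQ.HGR
import Pool.Agent.H81.EE.MCR
import Pool.Agent.H34.EQ.ALP
import Pool.Agent.H55.EQ.BDR
import Pool.Agent.H56.EE.MV3
import Pool.Agent.H2.EE.OPS
import Pool.Agent.H21.EE.QBA
import Pool.Agent.H89.EQ.TCR
import Pool.Agent.H70.EE.TZE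
import Pool.Agent.H93.EE.HG
import Pool.Agent.H93.EE.MO
import Pool.Agent.H49.EE.QDM
import Pool.Agent.H98.EQ.ROT
import Pool.Agent.H98.EQ.UNR
import Pool.Agent.H17.BO.All
import Pool.Agent.H30.EE.TargetsF

/-!
# MP_70ba79_ag, Theorem E, part Q: assembly (Proposition 7)
-/

set_option autoImplicit false

namespace Pool.Agent.H17.EQ

open MvPolynomial SC Pool.Agent.H27.LV Pool.Agent.H17.VG Pool.Agent.H17.BO Pool.Agent.H30.EE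

theorem mcr_all : T_MCR := by
  have hROT : T_ROT := Pool.Agent.H98.EQ.pf_ROT
  have hUNR : T_UNR := Pool.Agent.H98.EQ.pf_UNR Pool.Agent.H70.BO.GDR.pf_GDR hROT
    Pool.Agent.H34.EQ.pf_ALP
  have hOV : T_OV := Pool.Agent.H60.BO.pf_OV
  have hFU : T_FU := Pool.Agent.H51.BO.pf_FU hOV Pool.Agent.H62.FR.tr1 Pool.Agent.H27.LV.rat
  have hFS : T_FS := Pool.Agent.H70.BO.FS.pf_FS hFU hOV
  have hHTA : T_HTA := Pool.Agent.H95.BO.pf_HTA Pool.Agent.H27.LV.pfm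
  have hHLK : T_HLK := Pool.Agent.H72.BO.pf_HLK Pool.Agent.H76.KN.v5
  have hRHL : T_RHL := pf_RHL Pool.Agent.H27.LV.dor
  have hMS : T_MS := Pool.Agent.H22.BO.pf_MS Pool.Agent.H27.LV.pfm Pool.Agent.H27.LV.dor
    Pool.Agent.H27.LV.tDFI Pool.Agent.H27.LV.pfi hFS hRHL hOV
  have hHGR : T_HGR := Pool.Agent.H63.EQ.pf_HGR hROT Pool.Agent.H34.EQ.pf_ALP hHLK hHTA
    Pool.Agent.H59.BO.pf_HTR
  have hBDR : T_BDR := Pool.Agent.H55.EQ.pf_BDR Pool.Agent.H27.LV.pfm hHTA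
    Pool.Agent.H39.BO.pf_DI
  exact Pool.Agent.H81.EE.pf_MCR Pool.Agent.H78.BO.pf_SP hUNR hBDR hHLK hHGR hMS

theorem qqq_all : Pool.Agent.H17.EQ.T_QQQ := by
  have hHTA : T_HTA := Pool.Agent.H95.BO.pf_HTA Pool.Agent.H27.LV.pfm
  have hULT : T_ULT := Pool.Agent.H72.BO.pf_ULT Pool.Agent.H72.BO.pf_ULF hHTA
    Pool.Agent.H59.BO.pf_HTR
  have hMO : T_MO := Pool.Agent.H93.EE.pf_MO
  have hHG : T_HG := Pool.Agent.H93.EE.pf_HG hMO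
  have hQDM : T_QDM := Pool.Agent.H49.EE.pf_QDM
  have hQAL : T_QAL := pf_QAL pf_NSS Pool.Agent.H70.EE.pf_TZE
    (Pool.Agent.H56.EE.MV3.pf_MV3 Pool.Agent.H2.EE.pf_OPS) (Pool.Agent.H80.EE.pf_EQV hQDM)
  exact Pool.Agent.H80.EE.pf_QQQ hHG hMO (pf_QQP hHTA hULT
    (Pool.Agent.H21.EE.pf_QBA hQDM hHG) pf_TWR hQAL (Pool.Agent.H89.EQ.pf_TCR hHTA)
    mcr_all)

/-- Proposition 7 -/
theorem t_QQQ : Pool.Agent.H30.EE.T_QQQ := by
  intro n d r hr hd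
  obtain ⟨C, hC⟩ := qqq_all n d r hr hd
  refine ⟨C, ?_⟩
  intro k _ _ _ F hF K _ _ _ htr D hD z hz _ hev hT S hS hnn β hβ
  have h1 : frm (fun M : Mon (n + 1) d => coeff (fs M.1) F) = F := frm_coeff hF
  rw [← h1] at hev hT hS
  exact hC k K htr D hD _ z hz hev S hS hnn hT β hβ

end Pool.Agent.H17.EQ
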