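import Pool.Agent.H71.EQ.Targets

/-!
Row LHS of the board eqr: the counted tuples are approximated by the sets `SF`.
-/

set_option autoImplicit false

open Pool.Agent.H38.AE.Statement Pool.Agent.H38.AT MeasureTheory Filter
open scoped Topology

namespace Pool.Agent.H71.EQ

theorem lhs_nu {k : ℕ} (hk : 2 ≤ k) : 0 < nu k ∧ nu k ≤ 1 / 3 ∧ nu k = 1 / ((k + 1 : ℕ) : ℝ) := by
  have hk2 : (2 : ℝ) ≤ k := by exact_mod_cast hk
  unfold nu
  refine ⟨by positivity, ?_, by push_cast; rfl⟩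
  exact one_div_le_one_div_of_le (by norm_num) (by linarith)

theorem lhs_kap {C η a : ℝ} (hC : 0 < C) (hη : 0 < η) (ha : 0 < a) :
    ∃ κ₀ : ℝ, 0 < κ₀ ∧ κ₀ < 1 ∧ ∀ κ : ℝ, 0 < κ → κ ≤ κ₀ → C * κ ^ a ≤ η := by
  have h1 : 0 < (η / C) ^ (1 / a) := by positivity
  refine ⟨min (1 / 2) ((η / C) ^ (1 / a)), lt_min (by norm_num) h1,
    (min_le_left _ _).trans_lt (by norm_num), ?_⟩
  intro κ hκ hκ1
  have h2 : κ ^ a ≤ η / C := by
    have h3 : κ ^ a ≤ ((η / C) ^ (1 / a)) ^ a :=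
      Real.rpow_le_rpow hκ.le (hκ1.trans (min_le_right _ _)) ha.le
    rw [← Real.rpow_mul (by positivity), one_div_mul_cancel ha.ne', Real.rpow_one] at h3
    exact h3
  calc C * κ ^ a ≤ C * (η / C) := mul_le_mul_of_nonneg_left h2 hC.le
    _ = η := by field_simp

theorem lhs_sub {k : ℕ} (hk : 2 ≤ k) {ε ρ lam : ℝ} (hε : ε < 1) (hlam : 1 ≤ lam) :
    ∀ᶠ X : ℝ in atTop, ∀ (E : ℕ) (κ : ℝ), SF k E κ lam X ⊆ Tuples k ε ρ X := by
  obtain ⟨hn0, hn3, -⟩ := lhs_nu hk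
  have h1 : ∀ᶠ X : ℝ in atTop, max 1 (2 * Real.log lam) ≤ Real.log X :=
    Real.tendsto_log_atTop.eventually_ge_atTop _
  filter_upwards [h1, eventually_ge_atTop 1] with X hX hX1
  intro E κ x hx
  obtain ⟨hxa, -, -, hxr, hxh⟩ := hx
  refine ⟨hxa, hxr, Or.inr (Or.inl ?_)⟩
  have hl1 : 1 ≤ Real.log X := (le_max_left _ _).trans hX
  have hl2 : 2 * Real.log lam ≤ Real.log X := (le_max_right _ _).trans hX
  have hX0 : 0 < X := by linarith
  have h2 : Real.log X ≤ Real.log X ^ (2 - ε) := by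
    calc Real.log X = Real.log X ^ (1 : ℝ) := (Real.rpow_one _).symm
      _ ≤ Real.log X ^ (2 - ε) := Real.rpow_le_rpow_of_exponent_le hl1 (by linarith)
  refine le_trans ?_ h2
  rcases Nat.eq_zero_or_pos (height x) with h3 | h3
  · rw [h3, Nat.cast_zero, Real.log_zero]
    linarith
  · have h4 : Real.log (height x) ≤ Real.log (lam * X ^ nu k) :=
      Real.log_le_log (by exact_mod_cast h3) hxh
    rw [Real.log_mul (by linarith) (Real.rpow_pos_of_pos hX0 _).ne', Real.log_rpow hX0] at h4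
    have h5 : nu k * Real.log X ≤ 1 / 3 * Real.log X :=
      mul_le_mul_of_nonneg_right hn3 (by linarith)
    linarith

theorem lhs_pow {C η δ a : ℝ} (hη : 0 < η) (hδ : 0 < δ) :
    ∀ᶠ X : ℝ in atTop, C * X ^ (a - δ) ≤ η * X ^ a := by
  have h1 : Tendsto (fun X : ℝ => C * X ^ (-δ)) atTop (𝓝 (C * 0)) :=
    (tendsto_rpow_neg_atTop hδ).const_mul C
  rw [mul_zero] at h1
  filter_upwards [h1.eventually (gt_mem_nhds hη), eventually_gt_atTop 0] with X hX hX0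
  have h2 : 0 < X ^ a := Real.rpow_pos_of_pos hX0 _
  calc C * X ^ (a - δ) = C * X ^ (-δ) * X ^ a := by
        rw [mul_assoc, ← Real.rpow_add hX0]
        congr 2
        ring
    _ ≤ η * X ^ a := mul_le_mul_of_nonneg_right hX.le h2.le

theorem pf_LHS (h1 : T_RED) (h2 : T_SMR) (h3 : Pool.Agent.H38.EQ.T_TGT) (h4 : T_EXC) :
    T_LHS := by
  intro k ε hk hε hε1
  obtain ⟨hn0, hn3, hnu⟩ := lhs_nu hk
  obtain ⟨ε₀, hε₀, hT⟩ := h3 (k + 1) (by omega)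
  obtain ⟨ε₁, C1, hε₁, hC1, hS⟩ := h2 k hk
  obtain ⟨ρ, δ, C, hρ, hδ, hC, hR⟩ := h1 k ε (min ε₀ ε₁) hk hε hε1 (lt_min hε₀ hε₁)
  refine ⟨ρ, hρ, fun X hX => (hR X hX).1, ?_⟩
  intro η hη
  have hη3 : 0 < η / 3 := by positivity
  obtain ⟨Yr, lamr, X₀, hYr, hlamr, hX₀, hTT⟩ := hT (η / 3) hη3
  refine ⟨⌈Yr⌉₊, ?_⟩
  intro Y hY
  have hYY : Yr ≤ (Y : ℝ) := Nat.ceil_le.1 hY
  obtain ⟨κ₀, hκ₀, hκ₁, hκ⟩ := lhs_kap (a := 1 - nu k) hC1 hη3 (by linarith)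
  refine ⟨κ₀, lamr, hκ₀, hκ₁, hlamr, ?_⟩
  intro κ lam hκp hκle hlam
  have hlam1 : 1 ≤ lam := hlamr.trans hlam
  filter_upwards [lhs_sub (ρ := ρ) hk hε1 hlam1, hS κ hκp (hκle.trans hκ₁.le),
    lhs_pow (C := C) (a := 1 - nu k) hη3 hδ, eventually_ge_atTop X₀,
    eventually_ge_atTop (3 : ℝ)] with X hsub hsm hpow hX0 hX3
  refine ⟨fun E _ => hsub E κ, ?_⟩
  have hX1 : (1 : ℝ) ≤ X := by linarith
  have hXp : 0 < X := by linarith
  obtain ⟨hfin, hred⟩ := hR X hX3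
  obtain ⟨hsf, hsc⟩ := hsm
  classical
  set A : Set (Fin (k + 1) → ℤ) :=
    {x | x ∈ Tuples k ε ρ X ∧ X ^ (nu k + min ε₀ ε₁) < (height x : ℝ)} with hA
  set B : Set (Fin (k + 1) → ℤ) :=
    {x | Admissible x ∧ (rd x : ℝ) ≤ κ * X ∧ (height x : ℝ) ≤ X ^ (nu k + ε₁)} with hB
  set F : Finset (Fin (k + 1) → ℤ) := hfin.toFinset.filter (fun x =>
    (height x : ℝ) ≤ X ^ (nu k + ε₀) ∧
      (Yr ≤ Pool.Agent.H82.AS.ex (Pool.Agent.H38.EQ.pr x) ∨ lamr * X ^ nu k ≤ (height x : ℝ)))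
    with hF
  have hAf : A.Finite := hfin.subset fun x hx => hx.1
  have hcov : Tuples k ε ρ X \ ⋃ E ∈ Finset.Icc 1 Y, SF k E κ lam X ⊆ A ∪ B ∪ (F : Set _) := by
    rintro x ⟨hx, hnx⟩
    by_cases hh : X ^ (nu k + min ε₀ ε₁) < (height x : ℝ)
    · exact Or.inl (Or.inl ⟨hx, hh⟩)
    have hh1 := not_lt.1 hh
    have hh2 : (height x : ℝ) ≤ X ^ (nu k + ε₀) := hh1.trans
      (Real.rpow_le_rpow_of_exponent_le hX1 (by linarith [min_le_left ε₀ ε₁]))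
    have hh3 : (height x : ℝ) ≤ X ^ (nu k + ε₁) := hh1.trans
      (Real.rpow_le_rpow_of_exponent_le hX1 (by linarith [min_le_right ε₀ ε₁]))
    obtain ⟨hxa, hxr, hxt⟩ := hx
    obtain ⟨-, -, hex1, -, hexe⟩ := h4 (k + 1) x hxa.1
    have hFm : ∀ hor : (Yr ≤ Pool.Agent.H82.AS.ex (Pool.Agent.H38.EQ.pr x) ∨
        lamr * X ^ nu k ≤ (height x : ℝ)), x ∈ (F : Set (Fin (k + 1) → ℤ)) := by
      intro hor
      rw [hF, Finset.coe_filter]
      exact ⟨hfin.mem_toFinset.2 ⟨hxa, hxr, hxt⟩, hh2, hor⟩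
    by_cases hE : exc x ≤ Y
    · by_cases hr : (rd x : ℝ) ≤ κ * X
      · exact Or.inl (Or.inr ⟨hxa, hr, hh3⟩)
      · refine Or.inr (hFm (Or.inr ?_))
        by_contra hcon
        apply hnx
        simp only [Set.mem_iUnion]
        refine ⟨exc x, Finset.mem_Icc.2 ⟨hex1, hE⟩, hxa, rfl, not_le.1 hr, hxr, ?_⟩
        refine (not_le.1 hcon).le.trans ?_
        exact mul_le_mul_of_nonneg_right hlam (Real.rpow_nonneg hXp.le _)
    · refine Or.inr (hFm (Or.inl ?_))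
      rw [← hexe]
      have : (Y : ℝ) ≤ exc x := by exact_mod_cast (not_le.1 hE).le
      linarith
  have hcard : (Tuples k ε ρ X \ ⋃ E ∈ Finset.Icc 1 Y, SF k E κ lam X).ncard ≤
      A.ncard + B.ncard + F.card := by
    refine (Set.ncard_le_ncard hcov ((hAf.union hsf).union F.finite_toSet)).trans ?_
    refine (Set.ncard_union_le _ _).trans ?_
    rw [Set.ncard_coe_finset]
    exact Nat.add_le_add_right (Set.ncard_union_le _ _) _
  have hcardR : ((Tuples k ε ρ X \ ⋃ E ∈ Finset.Icc 1 Y, SF k E κ lam X).ncard : ℝ) ≤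
      (A.ncard : ℝ) + B.ncard + F.card := by exact_mod_cast hcard
  have hFc : (F.card : ℝ) ≤ η / 3 * X ^ (1 - nu k) := by
    have h5 := hTT X F hX0
    rw [← hnu] at h5
    refine h5 ?_
    intro x hx
    rw [hF, Finset.mem_filter, hfin.mem_toFinset] at hx
    exact ⟨hx.1.1, hx.1.2.1, hx.2.1, hx.2.2⟩
  have hBc : (B.ncard : ℝ) ≤ η / 3 * X ^ (1 - nu k) := by
    refine hsc.trans ?_
    rw [Real.mul_rpow hκp.le hXp.le, ← mul_assoc]
    exact mul_le_mul_of_nonneg_right (hκ κ hκp hκle) (Real.rpow_nonneg hXp.le _)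
  have hAc : (A.ncard : ℝ) ≤ η / 3 * X ^ (1 - nu k) := hred.trans hpow
  calc ((Tuples k ε ρ X \ ⋃ E ∈ Finset.Icc 1 Y, SF k E κ lam X).ncard : ℝ) ≤
      (A.ncard : ℝ) + B.ncard + F.card := hcardR
    _ ≤ η / 3 * X ^ (1 - nu k) + η / 3 * X ^ (1 - nu k) + η / 3 * X ^ (1 - nu k) := by linarith
    _ = η * X ^ (1 - nu k) := by ring

end Pool.Agent.H71.EQ
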