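import Pool.Agent.H17.EQ.TargetsQ

/-!
# MP_70ba79_ag, Theorem E, part Q: row NSS (Nullstellensatz and primitive element)
-/

set_option autoImplicit false

namespace Pool.Agent.H17.EQ

open MvPolynomial

/-- a tuple of algebraic elements in terms of one root -/
theorem prim_tuple (k k' : Type) [Field k] [CharZero k] [Field k'] [Algebra k k']
    (halg : ∀ z : k', IsAlgebraic k z) {τ : Type} [Finite τ] (y : τ → k') :
    ∃ (U : Polynomial k) (Y : τ → Polynomial k), U.Monic ∧ U.Separable ∧ 1 ≤ U.natDegree ∧
      ∀ f : MvPolynomial τ k, aeval y f = 0 → U ∣ aeval Y f := by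
  let S : Set k' := Set.range y
  have hSf : S.Finite := Set.finite_range _
  have hfd : FiniteDimensional k (IntermediateField.adjoin k S) :=
    IntermediateField.finiteDimensional_adjoin (fun z _ => (halg z).isIntegral)
  let E := IntermediateField.adjoin k S
  let pb := Field.powerBasisOfFiniteOfSeparable k E
  let α : k' := (pb.gen : k')
  have hval : ∀ f : Polynomial k, ((Polynomial.aeval pb.gen f : E) : k') =
      Polynomial.aeval α f := by
    intro f
    exact (Polynomial.aeval_algebraMap_apply k' pb.gen f).symm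
  have hex : ∀ z : E, ∃ f : Polynomial k, (z : k') = Polynomial.aeval α f := by
    intro z
    obtain ⟨f, hf⟩ := pb.exists_eq_aeval' z
    exact ⟨f, by rw [← hval, ← hf]⟩
  have hy : ∀ j, y j ∈ E := fun j => IntermediateField.subset_adjoin k S ⟨j, rfl⟩
  choose Y hY using fun j => hex ⟨y j, hy j⟩
  have hint : IsIntegral k α := (halg α).isIntegral
  refine ⟨minpoly k α, Y, minpoly.monic hint, (minpoly.irreducible hint).separable,
    minpoly.natDegree_pos hint, ?_⟩
  intro f hf
  apply minpoly.dvd k α
  rw [MvPolynomial.comp_aeval_apply]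
  have h1 : (fun i => Polynomial.aeval α (Y i)) = y := by
    funext j
    exact (hY j).symm
  rw [h1]
  exact hf

theorem pf_NSS : T_NSS := by
  intro k0 Ω _ _ _ _ τ _ I y hy
  obtain ⟨x, hx⟩ : ∃ x : τ → AlgebraicClosure k0, ∀ f ∈ I, aeval x f = 0 := by
    by_contra hcon
    push Not at hcon
    have h1 : zeroLocus (AlgebraicClosure k0) (Ideal.span I) = ∅ := by
      rw [Set.eq_empty_iff_forall_notMem]
      intro x hx
      obtain ⟨f, hf, hfx⟩ := hcon x
      exact hfx (hx f (Ideal.subset_span hf))
    have h2 := vanishingIdeal_zeroLocus_eq_radical (K := AlgebraicClosure k0) (Ideal.span I)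
    rw [h1, vanishingIdeal_empty, eq_comm, Ideal.radical_eq_top] at h2
    have h3 : Ideal.span I ≤ RingHom.ker (aeval (R := k0) y) := by
      rw [Ideal.span_le]
      intro f hf
      exact hy f hf
    rw [h2] at h3
    have h4 : (1 : MvPolynomial τ k0) ∈ RingHom.ker (aeval (R := k0) y) := h3 trivial
    rw [RingHom.mem_ker, map_one] at h4
    exact one_ne_zero h4
  obtain ⟨U, Y, h1, h2, h3, h4⟩ := prim_tuple k0 (AlgebraicClosure k0)
    (fun z => Algebra.IsAlgebraic.isAlgebraic z) x
  exact ⟨U, Y, h1, h2, h3, fun f hf => h4 f (hx f hf)⟩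

end Pool.Agent.H17.EQ
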