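import Pool.Agent.H17.EQ.TargetsQ

/-!
# MP_70ba79_ag, Theorem E, part Q: row ROT (the data at a root)
-/

set_option autoImplicit false

namespace Pool.Agent.H17.EQ

open MvPolynomial SC Pool.Agent.H27.LV Pool.Agent.H17.VG Pool.Agent.H17.BO Pool.Agent.H30.EE

theorem pf_ROT : T_ROT := by
  intro K L _ _ _ n r F x U Z V hC θ hθ
  have hdvd : ∀ G : Polynomial K, U ∣ G → Polynomial.aeval θ G = 0 := by
    rintro G ⟨W, rfl⟩
    rw [map_mul, Polynomial.aeval_def, ← Polynomial.eval_map, hθ, zero_mul]
  have hF : ∀ g : Fin (n + 1) → Polynomial K, Polynomial.aeval θ (aeval g F) =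
      eval (fun l => Polynomial.aeval θ (g l)) (up L F) := by
    intro g
    rw [MvPolynomial.comp_aeval_apply]
    unfold up
    rw [eval_map, aeval_def]
  have hAV : ∀ i, Polynomial.aeval θ (AV V x i) =
      ∑ l, Polynomial.aeval θ (V i l) * algebraMap K L (x l) := by
    intro i
    unfold AV
    rw [map_sum]
    exact Finset.sum_congr rfl fun l _ => by rw [map_mul, Polynomial.aeval_C]
  refine ⟨?_, ?_, ?_, ?_, ?_, ?_⟩
  · rw [← hF]
    exact hdvd _ hC.p0
  · have h := hdvd _ hC.p1
    rw [hF] at h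
    simp only [map_sum] at h
    exact h
  · rw [← hF]
    exact hdvd _ hC.p2
  · intro i i'
    have h := hdvd _ (hC.inv i i')
    rw [map_sub, map_sum, sub_eq_zero] at h
    simp only [map_mul] at h
    rw [h]
    by_cases h1 : i = i'
    · rw [if_pos h1, if_pos h1, map_one]
    · rw [if_neg h1, if_neg h1, map_zero]
  · intro j
    have h := hdvd _ (hC.pt j)
    rw [map_sub, map_sum, sub_eq_zero, Polynomial.aeval_C] at h
    simp only [map_mul, hAV] at h
    exact h
  · intro i i' l l' hil
    have h := hdvd _ (hC.rnc i i' l l' hil)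
    rw [map_sub, map_mul, map_mul, sub_eq_zero] at h
    simp only [hAV] at h
    exact h

end Pool.Agent.H17.EQ
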